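import Pool.Agent.Work.MP_db9399_dx_helper26.DECXF
import Pool.Agent.Work.MP_db9399_outx.Stmt

/-!
# MP_db9399, phase (v): the vertices of a spread set `W` in pieces of type K become heavy (helper6)
-/

set_option autoImplicit false

namespace Pool.Agent.Work.MP_db9399_h.helper6

open Finset Classical
open Pool.Agent.Work.MP_db9399_all (nb)
open Pool.Agent.Work.MP_db9399_da
open Pool.Agent.Work.MP_db9399_xf
open Pool.Agent.Work.MP_db9399_dx (Lnk Lnk0)
open Pool.Agent.Work.MP_db9399_xc.helper38 (Clx)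

universe u

section

variable {V : Type u} [Fintype V] {N J : ℕ}

/-- at most two vertices of `W` in every closed neighbourhood -/
def Spr (G : SimpleGraph V) (W : Finset V) : Prop := ∀ v, (insert v (nb G v) ∩ W).card ≤ 2

/-- the vertices of `W` in pieces of type K become heavy -/
noncomputable def addHv (X : XD V N J) (W : Finset V) : XD V N J :=
  { X with Hv := X.Hv ∪ W.filter (fun v => InT X Ty.K v) }

/-- double count -/
theorem spr_card {G : SimpleGraph V} {W : Finset V} (hW : Spr G W) (A : Finset V) {x : ℝ}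
    (h : ∀ u ∈ A ∩ W, x ≤ ((nb G u ∩ A).card : ℝ)) : x * ((A ∩ W).card : ℝ) ≤ 2 * A.card := by
  have h1 : ∑ u ∈ A ∩ W, (nb G u ∩ A).card = ∑ v ∈ A, (nb G v ∩ (A ∩ W)).card := by
    have e1 : ∀ u ∈ A ∩ W, (nb G u ∩ A).card = ∑ v ∈ A, if G.Adj u v then 1 else 0 := by
      intro u _
      rw [← card_filter]
      congr 1
      ext v
      simp only [mem_inter, mem_filter, nb, mem_univ, true_and]
      tauto
    have e2 : ∀ v ∈ A, (nb G v ∩ (A ∩ W)).card = ∑ u ∈ A ∩ W, if G.Adj u v then 1 else 0 := by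
      intro v _
      rw [← card_filter]
      congr 1
      ext u
      simp only [mem_inter, mem_filter, nb, mem_univ, true_and, G.adj_comm v u]
      tauto
    rw [sum_congr rfl e1, sum_congr rfl e2, sum_comm]
  have h2 : ∀ v ∈ A, (nb G v ∩ (A ∩ W)).card ≤ 2 := fun v _ =>
    (card_le_card fun w hw => by
      obtain ⟨h3, h4⟩ := mem_inter.1 hw
      exact mem_inter.2 ⟨mem_insert_of_mem h3, (mem_inter.1 h4).2⟩).trans (hW v)
  have h3 : ∑ u ∈ A ∩ W, (nb G u ∩ A).card ≤ 2 * A.card := by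
    rw [h1]
    calc _ ≤ ∑ v ∈ A, 2 := sum_le_sum h2
      _ = 2 * A.card := by rw [sum_const, smul_eq_mul, mul_comm]
  have h4 : ∑ u ∈ A ∩ W, x ≤ ∑ u ∈ A ∩ W, ((nb G u ∩ A).card : ℝ) := sum_le_sum h
  rw [sum_const, nsmul_eq_mul] at h4
  have h5 : (∑ u ∈ A ∩ W, ((nb G u ∩ A).card : ℝ)) ≤ 2 * A.card := by exact_mod_cast h3
  linarith

/-- **Pieces.** -/
theorem pcd_addHv {C g z θk θ' η a : ℝ} {M : ℕ} {S : Fin J → Scl} {G : SimpleGraph V} {d : ℕ}
    {X : XD V N J} {W : Finset V} (h : PcD C g z θk θ' η a M S G d X) (hW : Spr G W)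
    (hθk : θk ≤ 1 / 100) (hd : 1 ≤ d) :
    PcD C g z θk θ' (η + 3 / d) a M S G d (addHv X W) := by
  have hdR : (1 : ℝ) ≤ d := by exact_mod_cast hd
  have hd0 : (0 : ℝ) < d := by linarith
  have hη : η ≤ η + 3 / d := by
    have : (0 : ℝ) ≤ 3 / d := by positivity
    linarith
  have hN : ∀ n, X.P.ty n = Ty.N ∨ X.P.ty n = Ty.B →
      pV X.P n ∩ (addHv X W).Hv ⊆ pV X.P n ∩ X.Hv := by
    intro n hn v hv
    obtain ⟨h1, h2⟩ := mem_inter.1 hv
    rcases mem_union.1 h2 with h3 | h3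
    · exact mem_inter.2 ⟨h1, h3⟩
    · have h4 := (mem_filter.1 h3).2.2
      have h5 : X.P.pc v = n := ((mem_filter.1 h1).2).2
      rw [h5] at h4
      rcases hn with hn | hn <;> rw [hn] at h4 <;> cases h4
  exact
    { reg := h.reg, emp := h.emp, cln := h.cln, clp := h.clp, scq := h.scq, clc := h.clc
      npc := h.npc
      out := fun v h1 h2 => h.out v h1 fun h3 => h2 (mem_union_left _ h3)
      hvc := fun n hn => (by exact_mod_cast card_le_card (hN n hn) :
        ((pV X.P n ∩ (addHv X W).Hv).card : ℝ) ≤ ((pV X.P n ∩ X.Hv).card : ℝ)).trans (h.hvc n hn)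
      xs := h.xs, v0c := h.v0c, kL := h.kL, kU := h.kU, kd := h.kd, ki := h.ki
      kl := fun v hv => h.kl v ⟨hv.1, fun h3 => hv.2 (mem_union_left _ h3)⟩
      ks := fun n hn => (h.ks n hn).trans (mul_le_mul_of_nonneg_right
        (mul_le_mul_of_nonneg_right hη hd0.le) (Nat.cast_nonneg _))
      kh := by
        intro n hn
        have hn' : X.P.ty n = Ty.K := hn
        have hL := h.kL n hn'
        have hU := h.kU n hn'
        have h1 : (1 - θk) * d * ((pV X.P n ∩ W).card : ℝ) ≤ 2 * (pV X.P n).card := by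
          refine spr_card hW (pV X.P n) fun u hu => ?_
          have h2 := (mem_inter.1 hu).1
          have h3 := (mem_filter.1 h2).2
          have h4 := h.kd u ⟨h3.1, by rw [h3.2]; exact hn'⟩
          rw [h3.2] at h4
          exact h4
        have h2 : (pV X.P n ∩ W).card ≤ 2 := by
          by_contra h3
          have h4 : (3 : ℝ) ≤ ((pV X.P n ∩ W).card : ℝ) := by
            exact_mod_cast (by omega : 3 ≤ (pV X.P n ∩ W).card)
          have h5 : (1 - θk) * d * 3 ≤ (1 - θk) * d * ((pV X.P n ∩ W).card : ℝ) :=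
            mul_le_mul_of_nonneg_left h4 (mul_nonneg (by linarith) hd0.le)
          nlinarith
        have h3 : ((pV X.P n ∩ (addHv X W).Hv).card : ℝ) ≤ ((pV X.P n ∩ X.Hv).card : ℝ) + 2 := by
          have h4 : pV X.P n ∩ (addHv X W).Hv ⊆ (pV X.P n ∩ X.Hv) ∪ (pV X.P n ∩ W) := by
            intro v hv
            obtain ⟨h5, h6⟩ := mem_inter.1 hv
            rcases mem_union.1 h6 with h7 | h7
            · exact mem_union_left _ (mem_inter.2 ⟨h5, h7⟩)
            · exact mem_union_right _ (mem_inter.2 ⟨h5, (mem_filter.1 h7).1⟩)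
          have h5 := (card_le_card h4).trans (card_union_le _ _)
          exact_mod_cast h5.trans (Nat.add_le_add_left h2 _)
        have h4 := h.kh n hn'
        have h5 : (2 : ℝ) ≤ 3 / d * (pV X.P n).card := by
          rw [div_mul_eq_mul_div, le_div_iff₀ hd0]
          nlinarith
        show ((pV X.P n ∩ (addHv X W).Hv).card : ℝ) ≤ (η + 3 / d) * (pV X.P n).card
        linarith [add_mul η (3 / (d : ℝ)) ((pV X.P n).card : ℝ)]
      kz := h.kz, thd := h.thd, ths := h.ths, nL := h.nL, n4 := h.n4, bE := h.bE, cut := h.cut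
      nbi := h.nbi, bN := h.bN, rgT := h.rgT, rgd := h.rgd, rgp := h.rgp, rgc := h.rgc
      rgm := h.rgm }

/-- few vertices of `W` in a cluster -/
theorem clu_card {G : SimpleGraph V} {d : ℕ} {Mc ζc a gg : ℝ} {Cs : Finset (Finset V)}
    {W : Finset V} (hC : Clx G d Mc ζc a gg Cs) (hreg : ∀ v, (nb G v).card = d) (hW : Spr G W)
    (hζ : ζc ≤ 1 / 8) (hd : 1 ≤ d) {Q : Finset V} (hQ : Q ∈ Cs) :
    ((Q ∩ W).card : ℝ) ≤ 11 * Mc := by
  have hdR : (1 : ℝ) ≤ d := by exact_mod_cast hd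
  have h1 : 3 / 4 * (d : ℝ) * ((Q ∩ W).card : ℝ) ≤ 2 * Q.card := by
    refine spr_card hW Q fun u hu => ?_
    have h2 := hC.inn Q hQ u (mem_inter.1 hu).1
    have h3 : ((nb G u ∩ Q).card : ℝ) + ((nb G u \ Q).card : ℝ) = d := by
      rw [← hreg u]
      exact_mod_cast card_inter_add_card_sdiff (nb G u) Q
    nlinarith
  have h2 := hC.hi Q hQ
  have h3 : 3 / 4 * (d : ℝ) * ((Q ∩ W).card : ℝ) ≤ 3 / 4 * (d : ℝ) * (32 / 3 * Mc) := by
    nlinarith
  have h4 := le_of_mul_le_mul_left h3 (by positivity)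
  have h5 : 0 ≤ Mc := by
    have h6 : (0 : ℝ) ≤ Q.card := Nat.cast_nonneg _
    have h7 : (0 : ℝ) ≤ 4 * Mc * d := h6.trans h2
    by_contra h8
    nlinarith
  linarith

/-- **Links.** -/
theorem lnk_addHv {z0 κ Mc ζc a gg : ℝ} {G : SimpleGraph V} {d : ℕ} {Cs : Finset (Finset V)}
    {X : XD V N J} {W : Finset V} (h : Lnk z0 κ a G d Cs X) (hC : Clx G d Mc ζc a gg Cs)
    (hreg : ∀ v, (nb G v).card = d) (hW : Spr G W) (hζ : ζc ≤ 1 / 8) (hMc : 1 ≤ Mc)
    (hd : 1 ≤ d) : Lnk z0 (κ + 11 * Mc / d) a G d Cs (addHv X W) := by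
  have hdR : (1 : ℝ) ≤ d := by exact_mod_cast hd
  have hd0 : (0 : ℝ) < d := by linarith
  refine ⟨⟨h.q1, h.q2, fun v h1 h2 => h.lt v h1 fun h3 => h2 (mem_union_left _ h3), ?_, ?_,
    h.mz, h.n4⟩, ?_⟩
  · intro v hv
    rcases mem_union.1 hv with h1 | h1
    · exact h.hk v h1
    · exact (mem_filter.1 h1).2
  · intro Q hQ
    have h1 : (Q.filter fun v => v ∈ (addHv X W).P.V0 ∨ v ∈ (addHv X W).Hv) ⊆
        (Q.filter fun v => v ∈ X.P.V0 ∨ v ∈ X.Hv) ∪ (Q ∩ W) := by
      intro v hv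
      obtain ⟨h2, h3⟩ := mem_filter.1 hv
      rcases h3 with h3 | h3
      · exact mem_union_left _ (mem_filter.2 ⟨h2, Or.inl h3⟩)
      · rcases mem_union.1 h3 with h4 | h4
        · exact mem_union_left _ (mem_filter.2 ⟨h2, Or.inr h4⟩)
        · exact mem_union_right _ (mem_inter.2 ⟨h2, (mem_filter.1 h4).1⟩)
    have h2 : ((Q.filter fun v => v ∈ (addHv X W).P.V0 ∨ v ∈ (addHv X W).Hv).card : ℝ) ≤
        ((Q.filter fun v => v ∈ X.P.V0 ∨ v ∈ X.Hv).card : ℝ) + ((Q ∩ W).card : ℝ) := by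
      exact_mod_cast (card_le_card h1).trans (card_union_le _ _)
    have h3 := h.vh Q hQ
    have h4 := clu_card hC hreg hW hζ hd hQ
    have h5 : (κ + 11 * Mc / d) * (d : ℝ) = κ * d + 11 * Mc := by
      field_simp
    rw [h5]
    linarith
  · intro x hx q hq
    have h1 := h.v0n x hx q hq
    have h2 : ((nb G x).filter fun v => v ∉ X.P.V0 ∧ v ∉ X.Hv ∧ X.cq v = some q) ⊆
        ((nb G x).filter fun v => v ∉ (addHv X W).P.V0 ∧ v ∉ (addHv X W).Hv ∧
          (addHv X W).cq v = some q) ∪ (insert x (nb G x) ∩ W) := by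
      intro v hv
      obtain ⟨h3, h4, h5, h6⟩ := mem_filter.1 hv
      by_cases h7 : v ∈ W
      · exact mem_union_right _ (mem_inter.2 ⟨mem_insert_of_mem h3, h7⟩)
      · refine mem_union_left _ (mem_filter.2 ⟨h3, h4, fun h8 => ?_, h6⟩)
        rcases mem_union.1 h8 with h9 | h9
        · exact h5 h9
        · exact h7 (mem_filter.1 h9).1
    have h3 := (card_le_card h2).trans (card_union_le _ _)
    have h4 : (((nb G x).filter fun v => v ∉ X.P.V0 ∧ v ∉ X.Hv ∧ X.cq v = some q).card : ℝ) ≤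
        (((nb G x).filter fun v => v ∉ (addHv X W).P.V0 ∧ v ∉ (addHv X W).Hv ∧
          (addHv X W).cq v = some q).card : ℝ) + 2 := by
      exact_mod_cast h3.trans (Nat.add_le_add_left (hW x) _)
    have h5 : (3 / 4 - (κ + 11 * Mc / d)) * (d : ℝ) = (3 / 4 - κ) * d - 11 * Mc := by
      field_simp
      ring
    rw [h5]
    linarith

end

end Pool.Agent.Work.MP_db9399_h.helper6
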